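import Mathlib

set_option autoImplicit false
open Filter Topology MeasureTheory

namespace Pool.Agent.H.MP_22f2dc_an

abbrev E : Type := EuclideanSpace ℝ (Fin 3)

noncomputable def m (t : ℝ) : ℝ := max t 0 ^ 2

lemma m_deriv (t : ℝ) : HasDerivAt m (2 * max t 0) t := by
  rcases lt_trichotomy t 0 with h | rfl | h
  · rw [max_eq_right h.le, mul_zero]
    refine (hasDerivAt_const t (0 : ℝ)).congr_of_eventuallyEq ?_
    filter_upwards [Iio_mem_nhds h] with y hy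
    simp [m, max_eq_right (le_of_lt (Set.mem_Iio.1 hy))]
  · rw [max_self, mul_zero, hasDerivAt_iff_tendsto_slope_zero]
    refine squeeze_zero_norm (a := fun t : ℝ => |t|) (fun t => ?_) ?_
    · rcases le_total t 0 with h | h
      · simp [m, max_eq_right h]
      · by_cases ht : t = 0
        · simp [ht]
        · have : t⁻¹ • (m (0 + t) - m 0) = t := by
            simp [m, max_eq_left h]; field_simp
          rw [this, Real.norm_eq_abs]
    · have : Tendsto (fun t : ℝ => |t|) (𝓝 0) (𝓝 |0|) := continuous_abs.tendsto 0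
      simpa using this.mono_left nhdsWithin_le_nhds
  · rw [max_eq_left h.le]
    have := hasDerivAt_pow 2 t
    simp only [Nat.cast_ofNat, Nat.add_one_sub_one, pow_one] at this
    refine this.congr_of_eventuallyEq ?_
    filter_upwards [Ioi_mem_nhds h] with y hy
    simp [m, max_eq_left (le_of_lt (Set.mem_Ioi.1 hy))]

lemma m_cd : ContDiff ℝ 1 m := by
  rw [contDiff_one_iff_deriv]
  refine ⟨fun t => (m_deriv t).differentiableAt, ?_⟩
  have : deriv m = fun t => 2 * max t 0 := funext fun t => (m_deriv t).deriv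
  rw [this]
  fun_prop

noncomputable def X (i : Fin 3) : E →L[ℝ] ℝ := EuclideanSpace.proj i

lemma X_apply (i : Fin 3) (p : E) : X i p = p i := rfl

lemma hX (i : Fin 3) (p : E) : HasFDerivAt (fun q : E => q i) (X i) p := (X i).hasFDerivAt

lemma hM (p : E) : HasFDerivAt (fun q : E => m (q 0)) ((2 * max (p 0) 0) • X 0) p :=
  HasDerivAt.comp_hasFDerivAt (h₂ := m) (f := fun q : E => q 0) p (m_deriv (p 0)) (hX 0 p)

lemma cX (i : Fin 3) {n : WithTop ℕ∞} : ContDiff ℝ n (fun q : E => q i) := (X i).contDiff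

lemma cM : ContDiff ℝ 1 (fun q : E => m (q 0)) := m_cd.comp (cX 0)

noncomputable def v (p : E) : ℝ := p 0 * p 2 + p 1 * (m (p 0) ^ 3 - 15 * (m (p 0) ^ 2 * p 2 ^ 2))

lemma v_cd : ContDiff ℝ 1 v :=
  ((cX 0).mul (cX 2)).add ((cX 1).mul ((cM.pow 3).sub
    (contDiff_const.mul ((cM.pow 2).mul ((cX 2).pow 2)))))

lemma v_fd (p w : E) : fderiv ℝ v p w =
    (p 2 + p 1 * (6 * max (p 0) 0 ^ 5 - 60 * max (p 0) 0 ^ 3 * p 2 ^ 2)) * w 0 +
    (max (p 0) 0 ^ 6 - 15 * max (p 0) 0 ^ 4 * p 2 ^ 2) * w 1 +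
    (p 0 - 30 * p 1 * max (p 0) 0 ^ 4 * p 2) * w 2 := by
  have h : HasFDerivAt v _ p := ((hX 0 p).mul (hX 2 p)).add ((hX 1 p).mul (((hM p).pow 3).sub
    ((((hM p).pow 2).mul ((hX 2 p).pow 2)).const_mul 15)))
  rw [h.fderiv]
  simp [X_apply, m]
  ring

noncomputable def W0 (p : E) : ℝ :=
  p 2 + p 1 * (6 * (p 0 * m (p 0) ^ 2) - 60 * (p 0 * m (p 0) * p 2 ^ 2))
noncomputable def W1 (p : E) : ℝ :=
  m (p 0) ^ 3 - 15 * (m (p 0) ^ 2 * p 2 ^ 2) + 90 * (p 1 ^ 2 * m (p 0) * p 2 ^ 2)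
noncomputable def W2 (p : E) : ℝ := p 0 - 30 * (p 1 * m (p 0) ^ 2 * p 2)

lemma W0_cd : ContDiff ℝ 1 W0 :=
  (cX 2).add ((cX 1).mul ((contDiff_const.mul ((cX 0).mul (cM.pow 2))).sub
    (contDiff_const.mul (((cX 0).mul cM).mul ((cX 2).pow 2)))))
lemma W1_cd : ContDiff ℝ 1 W1 :=
  ((cM.pow 3).sub (contDiff_const.mul ((cM.pow 2).mul ((cX 2).pow 2)))).add
    (contDiff_const.mul ((((cX 1).pow 2).mul cM).mul ((cX 2).pow 2)))
lemma W2_cd : ContDiff ℝ 1 W2 :=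
  (cX 0).sub (contDiff_const.mul (((cX 1).mul (cM.pow 2)).mul (cX 2)))

lemma W_div (p : E) : fderiv ℝ W0 p (EuclideanSpace.single 0 1) +
    fderiv ℝ W1 p (EuclideanSpace.single 1 1) + fderiv ℝ W2 p (EuclideanSpace.single 2 1) = 0 := by
  have h0 : HasFDerivAt W0 _ p := (hX 2 p).add ((hX 1 p).mul
    ((((hX 0 p).mul ((hM p).pow 2)).const_mul 6).sub
      ((((hX 0 p).mul (hM p)).mul ((hX 2 p).pow 2)).const_mul 60)))
  have h1 : HasFDerivAt W1 _ p := (((hM p).pow 3).sub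
    ((((hM p).pow 2).mul ((hX 2 p).pow 2)).const_mul 15)).add
      (((((hX 1 p).pow 2).mul (hM p)).mul ((hX 2 p).pow 2)).const_mul 90)
  have h2 : HasFDerivAt W2 _ p := (hX 0 p).sub
    ((((hX 1 p).mul ((hM p).pow 2)).mul (hX 2 p)).const_mul 30)
  rw [h0.fderiv, h1.fderiv, h2.fderiv]
  simp [X_apply, m]
  rcases le_total (p 0) 0 with h | h
  · simp [max_eq_right h]
  · rw [max_eq_left h]; ring

lemma parts (f φ : E → ℝ) (hf : ContDiff ℝ 1 f) (hφ : ContDiff ℝ 1 φ) (hc : HasCompactSupport φ)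
    (w : E) : Integrable (fun x => f x * fderiv ℝ φ x w) ∧
      Integrable (fun x => fderiv ℝ f x w * φ x) ∧
      ∫ x, f x * fderiv ℝ φ x w = - ∫ x, fderiv ℝ f x w * φ x := by
  have c1 : Continuous fun x => fderiv ℝ f x w :=
    (hf.continuous_fderiv one_ne_zero).clm_apply continuous_const
  have c2 : Continuous fun x => fderiv ℝ φ x w :=
    (hφ.continuous_fderiv one_ne_zero).clm_apply continuous_const
  have i1 : Integrable (fun x => f x * fderiv ℝ φ x w) :=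
    (hf.continuous.mul c2).integrable_of_hasCompactSupport (hc.fderiv_apply ℝ w).mul_left
  have i2 : Integrable (fun x => fderiv ℝ f x w * φ x) :=
    (c1.mul hφ.continuous).integrable_of_hasCompactSupport hc.mul_left
  have i3 : Integrable (fun x => f x * φ x) :=
    (hf.continuous.mul hφ.continuous).integrable_of_hasCompactSupport hc.mul_left
  exact ⟨i1, i2, integral_mul_fderiv_eq_neg_fderiv_mul_of_integrable i2 i1 i3
    (fun x _ => hf.differentiable one_ne_zero x) (fun x _ => hφ.differentiable one_ne_zero x)⟩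

lemma weak (f0 f1 f2 φ : E → ℝ) (h0 : ContDiff ℝ 1 f0) (h1 : ContDiff ℝ 1 f1)
    (h2 : ContDiff ℝ 1 f2) (hφ : ContDiff ℝ 1 φ) (hc : HasCompactSupport φ)
    (hd : ∀ p, fderiv ℝ f0 p (EuclideanSpace.single 0 1) +
      fderiv ℝ f1 p (EuclideanSpace.single 1 1) + fderiv ℝ f2 p (EuclideanSpace.single 2 1) = 0) :
    ∫ x, (f0 x * fderiv ℝ φ x (EuclideanSpace.single 0 1) +
      f1 x * fderiv ℝ φ x (EuclideanSpace.single 1 1) +
      f2 x * fderiv ℝ φ x (EuclideanSpace.single 2 1)) = 0 := by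
  obtain ⟨a0, b0, e0⟩ := parts f0 φ h0 hφ hc (EuclideanSpace.single 0 1)
  obtain ⟨a1, b1, e1⟩ := parts f1 φ h1 hφ hc (EuclideanSpace.single 1 1)
  obtain ⟨a2, b2, e2⟩ := parts f2 φ h2 hφ hc (EuclideanSpace.single 2 1)
  have s1 := integral_add (a0.add a1) a2
  have s2 := integral_add (b0.add b1) b2
  simp only [Pi.add_apply] at s1 s2
  rw [integral_add b0 b1] at s2
  rw [s1, integral_add a0 a1, e0, e1, e2, ← neg_add, ← neg_add, ← s2, neg_eq_zero]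
  refine integral_eq_zero_of_ae (Eventually.of_forall fun x => ?_)
  simp only [Pi.zero_apply, ← add_mul, hd, zero_mul]

def D (q : ℝ × ℝ × ℝ) : ℝ := 1 + 30 * q.1 ^ 3 * q.2.1 * q.2.2
def Hh (q : ℝ × ℝ × ℝ) : ℝ := q.1 ^ 6 - 15 * q.1 ^ 4 * q.2.2 ^ 2
def P1 (q : ℝ × ℝ × ℝ) : ℝ := q.2.2 + q.2.1 * (6 * q.1 ^ 5 - 60 * q.1 ^ 3 * q.2.2 ^ 2)

noncomputable def G (q : ℝ × ℝ × ℝ) : ℝ × ℝ × ℝ :=
  (-90 * q.2.1 ^ 2 * q.1 ^ 2 / D q ^ 2 * Hh q, 90 * q.2.1 ^ 2 * q.1 ^ 2 / D q ^ 2 * P1 q,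
    -(90 * q.2.1 ^ 2 / D q ^ 2) * (12 * q.1 * q.2.1 * q.2.2 * D q + 36 * q.2.1 ^ 2 * Hh q))

lemma G_cd : ContDiffAt ℝ 1 G 0 := by
  have hD : D 0 ^ 2 ≠ 0 := by simp [D]
  have cD : ContDiffAt ℝ 1 D 0 := by unfold D; fun_prop
  have cH : ContDiffAt ℝ 1 Hh 0 := by unfold Hh; fun_prop
  have cP : ContDiffAt ℝ 1 P1 0 := by unfold P1; fun_prop
  unfold G
  fun_prop (disch := exact hD)

noncomputable def pr (p : E) : ℝ × ℝ × ℝ := (max (p 0) 0, p 1, p 2)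

lemma pr_dist (p q : E) : dist (pr p) (pr q) ≤ dist p q := by
  have h := fun i => PiLp.dist_apply_le p q i
  simp only [pr, Prod.dist_eq, max_le_iff]
  refine ⟨le_trans ?_ (h 0), h 1, h 2⟩
  rw [Real.dist_eq, Real.dist_eq]
  exact abs_max_sub_max_le_abs _ _ _

noncomputable def A (p : E) : Matrix (Fin 3) (Fin 3) ℝ :=
  !![1 + (G (pr p)).1, (G (pr p)).2.1, 0; (G (pr p)).2.1, 1 + (G (pr p)).2.2, 0; 0, 0, 1]

lemma radius : ∃ r : ℝ, 0 < r ∧ ∃ K : ℝ, 0 ≤ K ∧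
    (∀ p ∈ Metric.ball (0 : E) r, ∀ q ∈ Metric.ball (0 : E) r,
      dist (G (pr p)) (G (pr q)) ≤ K * dist p q) ∧
    ∀ p ∈ Metric.ball (0 : E) r, D (pr p) ≠ 0 ∧ ‖G (pr p)‖ < 1 / 4 := by
  obtain ⟨K, t, ht, hK⟩ := G_cd.exists_lipschitzOnWith
  have h1 : ∀ᶠ q in 𝓝 (0 : ℝ × ℝ × ℝ), D q ≠ 0 := by
    have cD : ContinuousAt D 0 := by unfold D; fun_prop
    exact cD.eventually_ne (by simp [D])
  have h2 : ∀ᶠ q in 𝓝 (0 : ℝ × ℝ × ℝ), ‖G q‖ < 1 / 4 := by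
    refine G_cd.continuousAt.norm.eventually (gt_mem_nhds ?_)
    simp [G]
  obtain ⟨r, hr, h⟩ := Metric.mem_nhds_iff.1 (inter_mem ht (h1.and h2))
  have hp : ∀ p ∈ Metric.ball (0 : E) r, pr p ∈ Metric.ball (0 : ℝ × ℝ × ℝ) r := by
    intro p hp
    have := pr_dist p 0
    have e : pr 0 = 0 := by simp [pr]
    rw [e] at this
    exact lt_of_le_of_lt this hp
  refine ⟨r, hr, K, K.2, fun p hp' q hq => ?_, fun p hp' => (h (hp p hp')).2⟩
  exact (hK.dist_le_mul _ (h (hp p hp')).1 _ (h (hp q hq)).1).trans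
    (mul_le_mul_of_nonneg_left (pr_dist p q) K.2)

lemma A_symm (p : E) (i j : Fin 3) : A p i j = A p j i := by
  fin_cases i <;> fin_cases j <;> rfl

lemma A_ell (p : E) (h : ‖G (pr p)‖ < 1 / 4) (ξ : E) :
    (2 : ℝ)⁻¹ * ‖ξ‖ ^ 2 ≤ ∑ i, ∑ j, A p i j * ξ i * ξ j ∧
      ∑ i, ∑ j, A p i j * ξ i * ξ j ≤ 2 * ‖ξ‖ ^ 2 := by
  have h1 := abs_lt.1 ((norm_fst_le (G (pr p))).trans_lt h)
  have h2 := abs_lt.1 (((norm_fst_le _).trans (norm_snd_le (G (pr p)))).trans_lt h)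
  have h3 := abs_lt.1 (((norm_snd_le _).trans (norm_snd_le (G (pr p)))).trans_lt h)
  rw [EuclideanSpace.real_norm_sq_eq]
  simp only [Fin.sum_univ_three, A]
  simp
  generalize (G (pr p)).1 = a at *
  generalize (G (pr p)).2.1 = b at *
  generalize (G (pr p)).2.2 = c at *
  have k1 := mul_nonneg (sub_nonneg.2 h1.1.le) (sq_nonneg (ξ 0))
  have k2 := mul_nonneg (sub_nonneg.2 h1.2.le) (sq_nonneg (ξ 0))
  have k3 := mul_nonneg (sub_nonneg.2 h3.1.le) (sq_nonneg (ξ 1))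
  have k4 := mul_nonneg (sub_nonneg.2 h3.2.le) (sq_nonneg (ξ 1))
  have k5 := mul_nonneg (sub_nonneg.2 h2.1.le) (sq_nonneg (ξ 0 + ξ 1))
  have k6 := mul_nonneg (sub_nonneg.2 h2.2.le) (sq_nonneg (ξ 0 - ξ 1))
  have k7 := mul_nonneg (sub_nonneg.2 h2.1.le) (sq_nonneg (ξ 0 - ξ 1))
  have k8 := mul_nonneg (sub_nonneg.2 h2.2.le) (sq_nonneg (ξ 0 + ξ 1))
  constructor <;> nlinarith [sq_nonneg (ξ 0), sq_nonneg (ξ 1), sq_nonneg (ξ 2)]

lemma A_lip (p q : E) (c : ℝ) (hc : 0 ≤ c) (h : dist (G (pr p)) (G (pr q)) ≤ c) (i j : Fin 3) :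
    |A p i j - A q i j| ≤ c := by
  simp only [Prod.dist_eq, max_le_iff, Real.dist_eq] at h
  obtain ⟨h1, h2, h3⟩ := h
  fin_cases i <;> fin_cases j <;> simp [A, h1, h2, h3, hc]

lemma sum_u (p : E) (b : Fin 3 → ℝ) :
    ∑ i, ∑ j, A p i j * fderiv ℝ (fun q : E => q 2) p (EuclideanSpace.single j 1) * b i =
      0 * b 0 + 0 * b 1 + 1 * b 2 := by
  rw [(hX 2 p).fderiv]
  simp [Fin.sum_univ_three, A, X_apply]

lemma sum_v (p : E) (hD : D (pr p) ≠ 0) (b : Fin 3 → ℝ) :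
    ∑ i, ∑ j, A p i j * fderiv ℝ v p (EuclideanSpace.single j 1) * b i =
      W0 p * b 0 + W1 p * b 1 + W2 p * b 2 := by
  simp only [v_fd, Fin.sum_univ_three, A]
  simp [W0, W1, W2, m, G]
  rcases le_total (p 0) 0 with h | h
  · simp [pr, max_eq_right h, Hh]
  · simp only [pr, max_eq_left h] at hD ⊢
    field_simp
    simp only [D, Hh, P1]
    ring

end Pool.Agent.H.MP_22f2dc_an
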